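import Pool.Agent.Helper81.XP.StB

/-!
# Ping-pong for a Galois conjugate (MP_f90738_co)
-/

open Finset
open scoped Pointwise LinearAlgebra.Projectivization

namespace Pool.Agent.Helper4.XP

open Pool.Agent.Helper81.XP

section words

variable {Γ : Type} [Group Γ] (a b : Γ)

theorem wd1 : wd a b ![1] = a := by simp [wd, lt, List.ofFn_succ]

theorem wd3 : wd a b ![3] = b := by simp [wd, lt, List.ofFn_succ]

theorem wd13 : wd a b ![1, 3] = a * b := by simp [wd, lt, List.ofFn_succ]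

theorem wd313 : wd a b ![3, 1, 3] = b * a * b := by simp [wd, lt, List.ofFn_succ, mul_assoc]

theorem wd3113 : wd a b ![3, 1, 1, 3] = b * a * a * b := by
  simp [wd, lt, List.ofFn_succ, mul_assoc]

theorem wd131 : wd a b ![1, 3, 1] = a * b * a := by simp [wd, lt, List.ofFn_succ, mul_assoc]

theorem wd1331 : wd a b ![1, 3, 3, 1] = a * b * b * a := by
  simp [wd, lt, List.ofFn_succ, mul_assoc]

theorem wd1131 : wd a b ![1, 1, 3, 1] = a * (a * b) * a := by
  simp [wd, lt, List.ofFn_succ, mul_assoc]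

theorem wd113131 : wd a b ![1, 1, 3, 1, 3, 1] = a * (a * b) * (a * b) * a := by
  simp [wd, lt, List.ofFn_succ, mul_assoc]

end words

theorem isWd_pow (hW : ST_WDL) {Γ : Type} [Group Γ] (a b : Γ) (m : ℕ) (g : Γ)
    (h : IsWd a b m g) (n : ℕ) (hn : 1 ≤ n) : IsWd a b (n * m) (g ^ n) := by
  induction n, hn using Nat.le_induction with
  | base => simpa using h
  | succ n hn ih =>
    rw [pow_succ, Nat.succ_mul]
    exact (hW Γ a b).1 _ _ _ _ ih h

section galois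

variable {k : Type} [Field k]

theorem sig_tt (σ : Om k ≃ₐ[RatFunc k] Om k) : σ (tt k) = tt k := by
  unfold tt
  rw [IsScalarTower.algebraMap_apply (Polynomial k) (RatFunc k) (Om k)]
  exact σ.commutes _

theorem sig_const (σ : Om k ≃ₐ[RatFunc k] Om k) (c : k) :
    σ (algebraMap k (Om k) c) = algebraMap k (Om k) c := by
  rw [IsScalarTower.algebraMap_apply k (RatFunc k) (Om k)]
  exact σ.commutes _

theorem sig_aeval (σ : Om k ≃ₐ[RatFunc k] Om k) (P : Fin 3 → Om k) (Φ : MvPolynomial (Fin 3) k) :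
    MvPolynomial.aeval (fun i => σ (P i)) Φ = σ (MvPolynomial.aeval P Φ) := by
  induction Φ using MvPolynomial.induction_on with
  | C c =>
    rw [MvPolynomial.aeval_C, MvPolynomial.aeval_C, sig_const]
  | add p q hp hq => rw [map_add, map_add, map_add, hp, hq]
  | mul_X p i hp => rw [map_mul, map_mul, map_mul, hp, MvPolynomial.aeval_X, MvPolynomial.aeval_X]

theorem sig_good (σ : Om k ≃ₐ[RatFunc k] Om k) (P : Fin 3 → Om k) (h : Good P) :
    Good (fun i => σ (P i)) := by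
  obtain ⟨h1, h2, h3, h4, h5⟩ := h
  have inj : ∀ x : Om k, σ x = 0 ↔ x = 0 := fun x => EmbeddingLike.map_eq_zero_iff
  have e1 : kap (fun i => σ (P i)) = σ (kap P) := by
    unfold kap
    simp only [map_sub, map_add, map_mul, map_pow, map_one, map_ofNat]
  have e2 : (fun i => σ (P i)) 2 ^ 2 + 1 = σ (P 2 ^ 2 + 1) := by
    simp only [map_add, map_pow, map_one]
  refine ⟨?_, ?_, ?_, ?_, ?_⟩
  · exact fun h => h1 ((inj _).mp h)
  · rw [e1]
    exact fun h => h2 ((inj _).mp h)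
  · rcases h3 with h3 | h3
    · exact Or.inl fun h => h3 ((inj _).mp h)
    · exact Or.inr fun h => h3 ((inj _).mp h)
  · rcases h4 with h4 | h4
    · exact Or.inl fun h => h4 ((inj _).mp h)
    · exact Or.inr fun h => h4 ((inj _).mp (by rw [← e2]; exact h))
  · rcases h5 with h5 | h5
    · exact Or.inl fun h => h5 ((inj _).mp h)
    · exact Or.inr fun h => h5 ((inj _).mp (by rw [← e2]; exact h))

end galois

section vals

variable {K : Type} [Field K] (O : ValuationSubring K)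

theorem val_add_inv {x : K} (h : 1 < O.valuation x) :
    O.valuation (x + x⁻¹) = O.valuation x := by
  have h1 : O.valuation x⁻¹ < 1 := by
    rw [map_inv₀]
    exact inv_lt_one_of_one_lt₀ h
  exact Valuation.map_add_eq_of_lt_left _ (h1.trans h)

theorem val_add_inv' {x : K} (h : 1 < O.valuation x⁻¹) :
    O.valuation (x + x⁻¹) = O.valuation x⁻¹ := by
  have h1 := val_add_inv O h
  rw [inv_inv, add_comm] at h1
  exact h1

theorem val_four {x : K} (h : 1 < O.valuation x) : x ^ 2 ≠ 4 := by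
  intro h1
  have h2 : O.valuation (4 : K) ≤ 1 := by
    rw [ValuationSubring.valuation_le_one_iff]
    exact_mod_cast natCast_mem O 4
  have h3 : 1 < O.valuation x ^ 2 := one_lt_pow₀ h (by norm_num)
  rw [← map_pow, h1] at h3
  exact absurd h2 (not_le.mpr h3)

end vals

theorem tr_comm {K : Type} [CommRing K] (g h : SL K) : tr (g * h) = tr (h * g) := by
  unfold tr
  rw [Matrix.SpecialLinearGroup.coe_mul, Matrix.SpecialLinearGroup.coe_mul,
    Matrix.trace_mul_comm]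

theorem tr_aba {K : Type} [CommRing K] (g h : SL K) :
    tr (g * h * g) = tr g * tr (g * h) - tr h := by
  have hd := g.2
  rw [Matrix.det_fin_two] at hd
  unfold tr
  simp only [Matrix.SpecialLinearGroup.coe_mul, Matrix.trace_fin_two, Matrix.mul_apply,
    Fin.sum_univ_two]
  linear_combination (-((h : Matrix (Fin 2) (Fin 2) K) 0 0) -
    ((h : Matrix (Fin 2) (Fin 2) K) 1 1)) * hd

set_option maxRecDepth 5000 in
/-- The main step for one pair of words. -/
theorem step (hP : ST_PPK) (hK : ST_KPL) (hW : ST_WDL) (k : Type) [Field k]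
    (P : Fin 3 → Om k) (S : Finset (Fin 3 → Om k))
    (hS : ∀ Q, Q ∈ S ↔ ∃ σ : Om k ≃ₐ[RatFunc k] Om k, Q = fun i => σ (P i))
    (O : ValuationSubring (Om k))
    (hprod : ∀ Φ : MvPolynomial (Fin 3) k,
      MvPolynomial.aeval P Φ ≠ 0 → 1 ≤ ∏ Q ∈ S, O.valuation (MvPolynomial.aeval Q Φ))
    (M : (Fin 3 → Om k) → O.ValueGroup)
    (hM : ∀ Q ∈ S, Q 2 ≠ 0 ∧ 1 < M Q ∧ O.valuation (Q 0) ≤ M Q ∧ O.valuation (Q 1) ≤ M Q ∧
      O.valuation (Q 2) ≤ M Q ∧ O.valuation (Q 2)⁻¹ ≤ M Q)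
    (cl : (Fin 3 → Om k) → Fin 3) (j : Fin 3)
    (hj : ∀ f : (Fin 3 → Om k) → O.ValueGroup, (∀ Q ∈ S, f Q ≤ M Q ^ 64) →
      1 ≤ ∏ Q ∈ S, f Q → ∃ Q ∈ S, cl Q = j ∧ 1 ≤ f Q * M Q ^ 128)
    (m1 m2 : ℕ) (w1 : Fin m1 → Fin 5) (w2 : Fin m2 → Fin 5) (h32 : 4 * m1 + 4 * m2 ≤ 32)
    (h400 : m1 * 165 + 2 * m2 ≤ 400)
    (hcl : ∀ Q ∈ S, cl Q = j → O.valuation (tr (wd (vA Q) (vB Q) w1)) = M Q)
    (Q0 : Fin 3 → Om k) (hQ0 : Q0 ∈ S)
    (hne : tr (ct (wd (vA Q0) (vB Q0) w1)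
      (wd (vA Q0) (vB Q0) w2 * wd (vA Q0) (vB Q0) w1 * (wd (vA Q0) (vB Q0) w2)⁻¹)) ≠ 2) :
    ∃ σ : Om k ≃ₐ[RatFunc k] Om k,
      PP (Pt (Om k)) (vA fun i => σ (P i)) (vB fun i => σ (P i)) LL := by
  obtain ⟨Φ, hΦ⟩ := hK k m1 m2 w1 w2 h32
  have h1 : MvPolynomial.aeval Q0 Φ ≠ 0 := by
    rw [(hΦ (Om k) Q0 (hM Q0 hQ0).1).1]
    have a1 : Q0 2 ^ 32 ≠ 0 := pow_ne_zero 32 (hM Q0 hQ0).1
    have a2 := sub_ne_zero.mpr hne
    exact mul_ne_zero a1 a2
  have h2 : MvPolynomial.aeval P Φ ≠ 0 := by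
    obtain ⟨σ, hσ⟩ := (hS Q0).mp hQ0
    intro h
    apply h1
    rw [hσ, sig_aeval, h, map_zero]
  have hb : ∀ Q ∈ S, O.valuation (MvPolynomial.aeval Q Φ) ≤ M Q ^ 64 := by
    intro Q hQ
    have a1 := (hΦ (Om k) Q (hM Q hQ).1).2 O (M Q)
    obtain ⟨b1, b2, b3, b4, b5, b6⟩ := hM Q hQ
    exact a1 b2.le b3 b4 b5 b6
  have hp := hprod Φ h2
  obtain ⟨Q, hQ, hQj, hQ1⟩ := hj (fun Q => O.valuation (MvPolynomial.aeval Q Φ)) hb hp
  obtain ⟨σ, hσ⟩ := (hS Q).mp hQ
  refine ⟨σ, ?_⟩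
  rw [← hσ]
  have h3 := hcl Q hQ hQj
  obtain ⟨q1, q2, q3, q4, q5, q6⟩ := hM Q hQ
  have h4 : 1 ≤ O.valuation (tr (ct (wd (vA Q) (vB Q) w1)
      (wd (vA Q) (vB Q) w2 * wd (vA Q) (vB Q) w1 * (wd (vA Q) (vB Q) w2)⁻¹)) - 2)
      * O.valuation (tr (wd (vA Q) (vB Q) w1)) ^ 160 := by
    rw [h3]
    refine hQ1.trans ?_
    rw [(hΦ (Om k) Q q1).1, map_mul, map_pow]
    calc O.valuation (Q 2) ^ 32 * O.valuation (tr (ct (wd (vA Q) (vB Q) w1)
          (wd (vA Q) (vB Q) w2 * wd (vA Q) (vB Q) w1 * (wd (vA Q) (vB Q) w2)⁻¹)) - 2)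
          * M Q ^ 128
        ≤ M Q ^ 32 * O.valuation (tr (ct (wd (vA Q) (vB Q) w1)
          (wd (vA Q) (vB Q) w2 * wd (vA Q) (vB Q) w1 * (wd (vA Q) (vB Q) w2)⁻¹)) - 2)
          * M Q ^ 128 := by
          gcongr
      _ = _ := by
        rw [show (160 : ℕ) = 32 + 128 by norm_num, pow_add]
        ac_rfl
  have h5 := hP (Om k) O (wd (vA Q) (vB Q) w1) (wd (vA Q) (vB Q) w2) (by rw [h3]; exact q2) h4
  have e1 : IsWd (vA Q) (vB Q) m1 (wd (vA Q) (vB Q) w1) := ⟨w1, rfl⟩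
  have e2 : IsWd (vA Q) (vB Q) m2 (wd (vA Q) (vB Q) w2) := ⟨w2, rfl⟩
  have W := hW (SL (Om k)) (vA Q) (vB Q)
  have e3 := isWd_pow hW _ _ _ _ e1 165 (by norm_num)
  have e4 := W.1 _ _ _ _ (W.1 _ _ _ _ e2 e3) (W.2.1 _ _ e2)
  refine ⟨_, _, W.2.2.1 _ LL _ ?_ e3, W.2.2.1 _ LL _ ?_ e4, h5⟩
  · unfold LL
    omega
  · unfold LL
    omega

theorem st_UUU (hO : ST_ORB) (hV : ST_VAI) (hS : ST_SFX) (hP : ST_PPK) (hG : ST_GDP)
    (hK : ST_KPL) (hW : ST_WDL) (hH : ST_HVY) : ST_UUU := by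
  intro k _ P hPc
  obtain ⟨hgood, hint, c, d, htt⟩ := hPc
  obtain ⟨⟨O, hAt⟩, hV2⟩ := hV k
  obtain ⟨hc1, ht1, -⟩ := hV2 O hAt
  obtain ⟨S, hPS, hSmem, hprod⟩ := hO k P hint
  have hc2 : ∀ c : k, O.valuation (algebraMap k (Om k) c) ≤ 1 := fun c =>
    (O.valuation_le_one_iff _).mpr (hAt.1 c)
  -- properties of the conjugates
  have hgQ : ∀ Q ∈ S, Good Q := by
    intro Q hQ
    obtain ⟨σ, hσ⟩ := (hSmem Q).mp hQ
    rw [hσ]
    exact sig_good σ P hgood
  have htQ : ∀ Q ∈ S, tt k = ∑ i, algebraMap k (Om k) (c i) * Q i + algebraMap k (Om k) d := by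
    intro Q hQ
    obtain ⟨σ, hσ⟩ := (hSmem Q).mp hQ
    have := congrArg σ htt
    rw [sig_tt, map_add, map_sum, sig_const] at this
    rw [this, hσ]
    congr 1
    refine Finset.sum_congr rfl fun i _ => ?_
    rw [map_mul, sig_const]
  obtain ⟨M, hMdef⟩ : ∃ M : (Fin 3 → Om k) → O.ValueGroup, ∀ Q, M Q
      = max (max (O.valuation (Q 0)) (O.valuation (Q 1))) (O.valuation (Q 2 + (Q 2)⁻¹)) :=
    ⟨_, fun Q => rfl⟩
  have hM1 : ∀ Q ∈ S, 1 < M Q := by
    intro Q hQ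
    by_contra hcon
    push Not at hcon
    rw [hMdef, max_le_iff, max_le_iff] at hcon
    obtain ⟨⟨h0, h1⟩, h2⟩ := hcon
    have h3 : O.valuation (Q 2) ≤ 1 := by
      by_contra h
      push Not at h
      rw [val_add_inv O h] at h2
      exact absurd h2 (not_le.mpr h)
    have h4 : O.valuation (tt k) ≤ 1 := by
      rw [htQ Q hQ]
      rw [O.valuation_le_one_iff] at h0 h1 h3 ⊢
      refine O.add_mem _ _ (O.sum_mem fun i _ => O.mul_mem _ _ (hAt.1 _) ?_) (hAt.1 _)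
      fin_cases i
      · exact h0
      · exact h1
      · exact h3
    exact absurd h4 (not_le.mpr ht1)
  have hM : ∀ Q ∈ S, Q 2 ≠ 0 ∧ 1 < M Q ∧ O.valuation (Q 0) ≤ M Q ∧ O.valuation (Q 1) ≤ M Q ∧
      O.valuation (Q 2) ≤ M Q ∧ O.valuation (Q 2)⁻¹ ≤ M Q := by
    intro Q hQ
    have h1 := hM1 Q hQ
    have h2 : O.valuation (Q 0) ≤ M Q := by
      rw [hMdef]
      exact (le_max_left _ _).trans (le_max_left _ _)
    have h3 : O.valuation (Q 1) ≤ M Q := by
      rw [hMdef]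
      exact (le_max_right _ _).trans (le_max_left _ _)
    have h4 : O.valuation (Q 2 + (Q 2)⁻¹) ≤ M Q := by
      rw [hMdef]
      exact le_max_right _ _
    refine ⟨(hgQ Q hQ).1, h1, h2, h3, ?_, ?_⟩
    · rcases le_or_gt (O.valuation (Q 2)) 1 with h | h
      · exact h.trans h1.le
      · rw [val_add_inv O h] at h4
        exact h4
    · rcases le_or_gt (O.valuation (Q 2)⁻¹) 1 with h | h
      · exact h.trans h1.le
      · rw [val_add_inv' O h] at h4
        exact h4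
  classical
  obtain ⟨cl, hcl⟩ : ∃ cl : (Fin 3 → Om k) → Fin 3, ∀ Q, cl Q
      = if M Q = O.valuation (Q 0) then 0 else if M Q = O.valuation (Q 1) then 1 else 2 :=
    ⟨_, fun Q => rfl⟩
  have hc0 : ∀ Q, cl Q = 0 → O.valuation (Q 0) = M Q := by
    intro Q h
    rw [hcl] at h
    split_ifs at h with h1 h2
    · exact h1.symm
    · exact absurd h (by decide)
    · exact absurd h (by decide)
  have hcl1 : ∀ Q, cl Q = 1 → O.valuation (Q 1) = M Q := by
    intro Q h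
    rw [hcl] at h
    split_ifs at h with h1 h2
    · exact absurd h (by decide)
    · exact h2.symm
    · exact absurd h (by decide)
  have hcl2 : ∀ Q, cl Q = 2 → O.valuation (Q 2 + (Q 2)⁻¹) = M Q := by
    intro Q h
    rw [hcl] at h
    split_ifs at h with h1 h2
    · exact absurd h (by decide)
    · exact absurd h (by decide)
    · have h3 := hMdef Q
      rcases max_choice (max (O.valuation (Q 0)) (O.valuation (Q 1)))
        (O.valuation (Q 2 + (Q 2)⁻¹)) with h4 | h4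
      · rw [h4] at h3
        rcases max_choice (O.valuation (Q 0)) (O.valuation (Q 1)) with h5 | h5
        · rw [h5] at h3
          exact absurd h3 h1
        · rw [h5] at h3
          exact absurd h3 h2
      · rw [h4] at h3
        exact h3.symm
  obtain ⟨j, ⟨Q0, hQ0, hQ0j⟩, hj⟩ := hH O.ValueGroup (Fin 3 → Om k) S M cl ⟨P, hPS⟩ hM1
  obtain ⟨g1, g2, g3, g4, g5⟩ := hgQ Q0 hQ0
  obtain ⟨-, m1, -⟩ := hM Q0 hQ0
  obtain ⟨t1, t2, t3, t4⟩ := hG (Om k) Q0 g1
  have hno : ∀ ξ : Pt (Om k), ¬ (vA Q0 • ξ = ξ ∧ vB Q0 • ξ = ξ) := fun ξ h =>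
    g2 (t4.mpr ⟨ξ, h⟩)
  have hz : tr (vA Q0 * vB Q0) = 0 → Q0 2 ^ 2 + 1 = 0 := by
    intro h
    rw [t3] at h
    have : Q0 2 ^ 2 + 1 = Q0 2 * (Q0 2 + (Q0 2)⁻¹) := by
      field_simp
    rw [this, h, mul_zero]
  have key := step hP hK hW k P S hSmem O (hprod O hAt) M hM cl j hj
  have hj3 : j = 0 ∨ j = 1 ∨ j = 2 := by
    fin_cases j <;> simp
  rcases hj3 with rfl | rfl | rfl
  · -- X = A, Z = B
    have tX : ∀ Q ∈ S, cl Q = 0 → O.valuation (tr (wd (vA Q) (vB Q) ![1])) = M Q := by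
      intro Q hQ h
      rw [wd1, (hG (Om k) Q (hM Q hQ).1).1]
      exact hc0 Q h
    rcases hS (Om k) (vA Q0) (vB Q0)
      (by
        have := tX Q0 hQ0 hQ0j
        rw [wd1] at this
        exact val_four O (by rw [this]; exact m1))
      (fun ξ h1 h2 => hno ξ ⟨h1, h2⟩)
      (fun h => by
        rcases g5 with h5 | h5
        · exact h5 (t2.symm.trans h.1)
        · exact h5 (hz h.2)) with h | h | h
    · exact key 1 1 ![1] ![3] (by norm_num) (by norm_num) tX Q0 hQ0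
        (by simpa only [wd1, wd3] using h)
    · exact key 1 3 ![1] ![3, 1, 3] (by norm_num) (by norm_num) tX Q0 hQ0
        (by simpa only [wd1, wd313] using h)
    · exact key 1 4 ![1] ![3, 1, 1, 3] (by norm_num) (by norm_num) tX Q0 hQ0
        (by simpa only [wd1, wd3113] using h)
  · -- X = B, Z = A
    have tX : ∀ Q ∈ S, cl Q = 1 → O.valuation (tr (wd (vA Q) (vB Q) ![3])) = M Q := by
      intro Q hQ h
      rw [wd3, (hG (Om k) Q (hM Q hQ).1).2.1]
      exact hcl1 Q h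
    rcases hS (Om k) (vB Q0) (vA Q0)
      (by
        have := tX Q0 hQ0 hQ0j
        rw [wd3] at this
        exact val_four O (by rw [this]; exact m1))
      (fun ξ h1 h2 => hno ξ ⟨h2, h1⟩)
      (fun h => by
        rcases g4 with h5 | h5
        · exact h5 (t1.symm.trans h.1)
        · exact h5 (hz ((tr_comm _ _).trans h.2))) with h | h | h
    · exact key 1 1 ![3] ![1] (by norm_num) (by norm_num) tX Q0 hQ0
        (by simpa only [wd1, wd3] using h)
    · exact key 1 3 ![3] ![1, 3, 1] (by norm_num) (by norm_num) tX Q0 hQ0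
        (by simpa only [wd3, wd131] using h)
    · exact key 1 4 ![3] ![1, 3, 3, 1] (by norm_num) (by norm_num) tX Q0 hQ0
        (by simpa only [wd3, wd1331] using h)
  · -- X = AB, Z = A
    have tX : ∀ Q ∈ S, cl Q = 2 → O.valuation (tr (wd (vA Q) (vB Q) ![1, 3])) = M Q := by
      intro Q hQ h
      rw [wd13, (hG (Om k) Q (hM Q hQ).1).2.2.1]
      exact hcl2 Q h
    rcases hS (Om k) (vA Q0 * vB Q0) (vA Q0)
      (by
        have := tX Q0 hQ0 hQ0j
        rw [wd13] at this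
        exact val_four O (by rw [this]; exact m1))
      (fun ξ h1 h2 => hno ξ ⟨h2, by
        rw [mul_smul] at h1
        have h3 := congrArg (fun x => (vA Q0)⁻¹ • x) h1
        simp only [inv_smul_smul] at h3
        rw [h3, inv_smul_eq_iff]
        exact h2.symm⟩)
      (fun h => by
        have h5 := h.2
        rw [tr_aba, h.1, zero_mul, zero_sub, neg_eq_zero] at h5
        rcases g3 with h6 | h6
        · exact h6 (t1.symm.trans h.1)
        · exact h6 (t2.symm.trans h5)) with h | h | h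
    · exact key 2 1 ![1, 3] ![1] (by norm_num) (by norm_num) tX Q0 hQ0
        (by simpa only [wd1, wd13] using h)
    · exact key 2 4 ![1, 3] ![1, 1, 3, 1] (by norm_num) (by norm_num) tX Q0 hQ0
        (by simpa only [wd13, wd1131] using h)
    · exact key 2 6 ![1, 3] ![1, 1, 3, 1, 3, 1] (by norm_num) (by norm_num) tX Q0 hQ0
        (by simpa only [wd13, wd113131] using h)

end Pool.Agent.Helper4.XP
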